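import Pool.Agent.Run7.h664.NL.Iface

/-!
# Project NL (MP_35c333_an): the leaf ZZ
-/

set_option autoImplicit false

namespace Run7.h255.NLZZ

open Finset Filter Topology Pool.Agent.TH91.RF Pool.Agent.TH91.NB Pool.Agent.TH91.LG
open Run7.h664.NL

variable {N d : ℕ}

theorem E_smul_cont (x : Mt N) (hx : x ∈ (mF N).F 1) :
    Continuous fun t : ℝ => (E (t • x) : (Mt N)ˣ) := by
  rw [Units.continuous_iff]
  have h1 : ∀ t : ℝ, t • x ∈ (mF N).F 1 := fun t => J1261.smul_mem hx t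
  have h2 : ∀ t : ℝ, -(t • x) ∈ (mF N).F 1 := fun t => ((mF N).F 1).neg_mem (h1 t)
  constructor
  · have e : (Units.val ∘ fun t : ℝ => (E (t • x) : (Mt N)ˣ)) = fun t : ℝ => J887.Ex N (t • x) := by
      funext t
      rw [Function.comp_apply, E_val (h1 t), (mF N).exp_eq (h1 t)]
      rfl
    rw [e]
    exact J887.Ex_continuous.comp (continuous_id.smul continuous_const)
  · have e : (fun t : ℝ => (((E (t • x) : (Mt N)ˣ)⁻¹ : (Mt N)ˣ) : Mt N)) =
        fun t : ℝ => J887.Ex N (-(t • x)) := by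
      funext t
      rw [E_inv_val (h1 t), (mF N).exp_eq (h2 t)]
      rfl
    rw [e]
    exact J887.Ex_continuous.comp (continuous_id.smul continuous_const).neg

theorem E_zero : (E (0 : Mt N) : (Mt N)ˣ) = 1 := by
  apply Units.ext
  rw [E_val (Submodule.zero_mem _), IsNilpotent.exp_zero, Units.val_one]

theorem E_pow (x : Mt N) (hx : x ∈ (mF N).F 1) (n : ℕ) : (E x) ^ n = E ((n : ℝ) • x) := by
  apply Units.ext
  rw [Units.val_pow_eq_pow_val, E_val hx, E_val (J1261.smul_mem hx _), ← exp_nsmul hx,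
    Nat.cast_smul_eq_nsmul]

theorem E_root (x : Mt N) (hx : x ∈ (mF N).F 1) (n : ℕ) (hn : n ≠ 0) :
    (E (((n : ℝ)⁻¹) • x)) ^ n = E x := by
  rw [E_pow _ (J1261.smul_mem hx _), smul_smul, mul_inv_cancel₀ (by exact_mod_cast hn), one_smul]

/-- `γ ^ q E ξ γ ^ (-q) = E (γ ^ q ξ γ ^ (-q))` -/
theorem E_conj (c : (Mt N)ˣ) (x : Mt N) (hx : x ∈ (mF N).F 1)
    (hx2 : (c : Mt N) * x * ((c⁻¹ : (Mt N)ˣ) : Mt N) ∈ (mF N).F 1) :
    c * E x * c⁻¹ = E ((c : Mt N) * x * ((c⁻¹ : (Mt N)ˣ) : Mt N)) := by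
  apply Units.ext
  rw [Units.val_mul, Units.val_mul, E_val hx, E_val hx2,
    exp_conj (Units.mul_inv c) (Units.inv_mul c) ((mF N).nilp hx)]

section

variable (C : Core N) (P : Fin d → Polynomial ℤ)

/-- `exp F` in the big group -/
noncomputable def eb (F : AF N d) : BG N d := ⟨fun p => E (F p), 0⟩

theorem eb_mem {F : AF N d} (hF : F ∈ hh C P) : eb F ∈ GG C P :=
  Subgroup.subset_closure (Or.inl (Or.inl ⟨F, hF, rfl⟩))

noncomputable def gc : BG N d := ⟨fun _ => E C.Mc, 0⟩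

theorem gc_mem : (gc C : BG N d) ∈ GG C P :=
  Subgroup.subset_closure (Or.inl (Or.inr rfl))

noncomputable def ss : BG N d := ⟨fun _ => 1, 1⟩

theorem ss_mem : (ss : BG N d) ∈ GG C P :=
  Subgroup.subset_closure (Or.inr rfl)

theorem bg_pow (F : AF N d) (n : ℕ) :
    (eb F) ^ n = ⟨fun p => (E (F p)) ^ n, 0⟩ := by
  induction n with
  | zero =>
    rw [pow_zero]
    apply BG.ext
    · funext p
      rfl
    · rfl
  | succ n ih =>
    rw [pow_succ, ih]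
    apply BG.ext
    · funext p
      change E (F p) ^ n * E (F (p.1 + 0, p.2)) = E (F p) ^ (n + 1)
      rw [add_zero, pow_succ]
    · rfl

theorem eb_cont {F : AF N d} (hF : ∀ p, F p ∈ (mF N).F 1) :
    Continuous fun t : ℝ => eb (t • F) := by
  refine BG.continuous_mk (fun p => ?_) ?_
  · exact E_smul_cont (F p) (hF p)
  · exact continuous_const

theorem eb_zero : (eb (0 : AF N d)) = 1 := by
  apply BG.ext
  · funext p
    exact E_zero
  · rfl

theorem eb_rooted (hk : ∀ x ∈ hh C P, ∀ p, x p ∈ C.k) {F : AF N d} (hF : F ∈ hh C P) :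
    Pool.Agent.V11106.Rooted (⟨eb F, eb_mem C P hF⟩ : GG C P) := by
  have hs : ∀ t : ℝ, t • F ∈ hh C P := fun t => (hh C P).smul_mem t hF
  have hp : ∀ p, F p ∈ (mF N).F 1 := fun p => C.sup _ (hk F hF p)
  refine ⟨fun n => ⟨eb (((n : ℝ)⁻¹) • F), eb_mem C P (hs _)⟩, ?_, ?_⟩
  · have h1 : Continuous fun t : ℝ => (⟨eb (t • F), eb_mem C P (hs t)⟩ : GG C P) :=
      (eb_cont hp).subtype_mk _
    have h2 : Tendsto (fun n : ℕ => ((n : ℝ)⁻¹)) atTop (𝓝 0) := tendsto_inv_atTop_nhds_zero_nat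
    have h3 := (h1.tendsto 0).comp h2
    have h4 : (⟨eb ((0 : ℝ) • F), eb_mem C P (hs 0)⟩ : GG C P) = 1 := by
      apply Subtype.ext
      change eb ((0 : ℝ) • F) = 1
      rw [zero_smul, eb_zero]
    rw [h4] at h3
    exact h3
  · filter_upwards [eventually_gt_atTop 0] with n hn
    apply Subtype.ext
    change (eb (((n : ℝ)⁻¹) • F)) ^ n = eb F
    rw [bg_pow]
    apply BG.ext
    · funext p
      exact E_root (F p) (hp p) n (by omega)
    · rfl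

theorem jj_le (hsh : ∀ x ∈ hh C P, ∀ n : ℤ, sh n x ∈ hh C P) : jj C P ≤ hh C P := by
  unfold jj
  rw [Submodule.span_le]
  rintro x (⟨u, hu, v, hv, rfl⟩ | ⟨u, hu, rfl⟩)
  · exact lieSp_br _ hu hv
  · exact (hh C P).sub_mem (hsh u hu 1) hu

theorem z1_eq (F : AF N d) (hF : ∀ p, F p ∈ (mF N).F 1)
    (h : ∀ p, (((z1 C P).u p : (Mt N)ˣ) : Mt N) = IsNilpotent.exp (F p)) :
    z1 C P = eb F * ss := by
  apply BG.ext
  · funext p
    rw [BG.mul_u]
    have h1 : (ss : BG N d).u (p.1 + (eb F).s, p.2) = 1 := rfl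
    rw [h1, mul_one]
    apply Units.ext
    rw [h p]
    exact (E_val (hF p)).symm
  · rw [BG.mul_s]
    rfl

theorem z2_eq (j : Mt N) (hj : C.Mg - C.Mc + j ∈ C.k)
    (hA : ∀ p, Af C P (C.Mg - C.Mc + j) 0 p ∈ (mF N).F 1)
    (h : E C.Mg * (E C.Mc)⁻¹ = E (C.Mg - C.Mc + j)) :
    z2 C P = eb (Af C P (C.Mg - C.Mc + j) 0) * gc C := by
  apply BG.ext
  · funext p
    rw [BG.mul_u]
    have h1 : (gc C : BG N d).u (p.1 + (eb (Af C P (C.Mg - C.Mc + j) 0)).s, p.2) = E C.Mc := rfl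
    rw [h1]
    have h2 : (eb (Af C P (C.Mg - C.Mc + j) 0)).u p = E (Af C P (C.Mg - C.Mc + j) 0 p) := rfl
    rw [h2]
    have h3 : Af C P (C.Mg - C.Mc + j) 0 p =
        ((E C.Mc ^ ((P p.2).eval p.1) : (Mt N)ˣ) : Mt N) * (C.Mg - C.Mc + j) *
          (((E C.Mc ^ ((P p.2).eval p.1))⁻¹ : (Mt N)ˣ) : Mt N) := by
      rw [← zpow_neg]
      simp only [Af, add_zero]
    have h4 := hA p
    rw [h3] at h4 ⊢
    rw [← E_conj _ _ (C.sup _ hj) h4, ← h]
    change (bb C P p)⁻¹ * E C.Mg * bb C P p = _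
    unfold bb
    rw [zpow_neg, mul_inv_rev, inv_inv]
    have hc : E C.Mg * E C.Mg ^ ((P p.2).eval p.1) = E C.Mg ^ ((P p.2).eval p.1) * E C.Mg := by
      rw [← zpow_one_add, ← zpow_add_one, add_comm]
    have hc2 : (E C.Mc)⁻¹ * (E C.Mc ^ ((P p.2).eval p.1))⁻¹ * E C.Mc =
        (E C.Mc ^ ((P p.2).eval p.1))⁻¹ := by
      rw [← zpow_neg, ← zpow_neg_one, ← zpow_add, ← zpow_add_one]
      congr 1
      ring
    calc E C.Mc ^ ((P p.2).eval p.1) * (E C.Mg ^ ((P p.2).eval p.1))⁻¹ * E C.Mg *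
          (E C.Mg ^ ((P p.2).eval p.1) * (E C.Mc ^ ((P p.2).eval p.1))⁻¹)
        = E C.Mc ^ ((P p.2).eval p.1) * ((E C.Mg ^ ((P p.2).eval p.1))⁻¹ * (E C.Mg *
          E C.Mg ^ ((P p.2).eval p.1))) * (E C.Mc ^ ((P p.2).eval p.1))⁻¹ := by group
      _ = E C.Mc ^ ((P p.2).eval p.1) * E C.Mg * (E C.Mc ^ ((P p.2).eval p.1))⁻¹ := by
          rw [hc, inv_mul_cancel_left]
      _ = E C.Mc ^ ((P p.2).eval p.1) * E C.Mg * ((E C.Mc)⁻¹ *
          (E C.Mc ^ ((P p.2).eval p.1))⁻¹ * E C.Mc) := by rw [hc2]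
      _ = E C.Mc ^ ((P p.2).eval p.1) * (E C.Mg * (E C.Mc)⁻¹) *
          (E C.Mc ^ ((P p.2).eval p.1))⁻¹ * E C.Mc := by group
  · rw [BG.mul_s]
    rfl

theorem z_comm : Commute (z1 C P) (z2 C P) := by
  apply BG.ext
  · funext p
    rw [BG.mul_u, BG.mul_u]
    have e1 : (z2 C P).s = 0 := rfl
    have e2 : (z1 C P).s = 1 := rfl
    rw [e1, e2, add_zero]
    change (bb C P p)⁻¹ * bb C P (p.1 + 1, p.2) *
      ((bb C P (p.1 + 1, p.2))⁻¹ * E C.Mg * bb C P (p.1 + 1, p.2)) =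
      (bb C P p)⁻¹ * E C.Mg * bb C P p * ((bb C P p)⁻¹ * bb C P (p.1 + 1, p.2))
    group
  · rw [BG.mul_s, BG.mul_s]
    rfl

end

/-- **The leaf ZZ.** -/
theorem t_ZZ : S_ZZ := by
  intro hABM hHHP hSHF hF4 hG0 hGGM N d C P
  obtain ⟨M, hM, hdeg⟩ : ∃ M : ℕ, 1 ≤ M ∧ ∀ i, (P i).natDegree ≤ M := by
    refine ⟨1 + ∑ i, (P i).natDegree, by omega, fun i => ?_⟩
    have := Finset.single_le_sum (f := fun i => (P i).natDegree) (fun _ _ => Nat.zero_le _)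
      (Finset.mem_univ i)
    have h2 : (P i).natDegree ≤ ∑ i, (P i).natDegree := this
    omega
  obtain ⟨hk, -, hsh, -, -⟩ := hHHP N d M C P hM hdeg
  obtain ⟨j, hj, hz1⟩ := hF4 hABM hHHP hSHF N d C P
  obtain ⟨j', -, hj', hg⟩ := hG0 N C
  have hF1 : Bf C P (C.Mg - C.Mc) 0 + j ∈ hh C P :=
    (hh C P).add_mem (subset_lieSp _ ⟨C.Mg - C.Mc, C.diff, 0, Or.inr rfl⟩) (jj_le C P hsh hj)
  have hxi : C.Mg - C.Mc + j' ∈ C.k := C.k.add_mem C.diff hj'
  have hF2 : Af C P (C.Mg - C.Mc + j') 0 ∈ hh C P :=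
    subset_lieSp _ ⟨C.Mg - C.Mc + j', hxi, 0, Or.inl rfl⟩
  have e1 := z1_eq C P _ (fun p => C.sup _ (hk _ hF1 p)) hz1
  have e2 := z2_eq C P j' hxi (fun p => C.sup _ (hk _ hF2 p)) hg
  have h1 : z1 C P ∈ GG C P := by
    rw [e1]
    exact (GG C P).mul_mem (eb_mem C P hF1) (ss_mem C P)
  have h2 : z2 C P ∈ GG C P := by
    rw [e2]
    exact (GG C P).mul_mem (eb_mem C P hF2) (gc_mem C P)
  refine ⟨h1, h2, z_comm C P, ?_⟩
  set T : Subgroup (GG C P) := Subgroup.closure ({(⟨z1 C P, h1⟩ : GG C P), ⟨z2 C P, h2⟩} ∪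
      {c : GG C P | Pool.Agent.V11106.Rooted c}) with hT
  have hE : ∀ F (hF : F ∈ hh C P), (⟨eb F, eb_mem C P hF⟩ : GG C P) ∈ T := fun F hF =>
    Subgroup.subset_closure (Or.inr (eb_rooted C P hk hF))
  have hS : (⟨ss, ss_mem C P⟩ : GG C P) ∈ T := by
    have e : (⟨ss, ss_mem C P⟩ : GG C P) =
        (⟨eb _, eb_mem C P hF1⟩ : GG C P)⁻¹ * ⟨z1 C P, h1⟩ := by
      apply Subtype.ext
      change ss = (eb _)⁻¹ * z1 C P
      rw [e1, inv_mul_cancel_left]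
    rw [e]
    exact T.mul_mem (T.inv_mem (hE _ hF1)) (Subgroup.subset_closure (Or.inl (Or.inl rfl)))
  have hc : (⟨gc C, gc_mem C P⟩ : GG C P) ∈ T := by
    have e : (⟨gc C, gc_mem C P⟩ : GG C P) =
        (⟨eb _, eb_mem C P hF2⟩ : GG C P)⁻¹ * ⟨z2 C P, h2⟩ := by
      apply Subtype.ext
      change gc C = (eb _)⁻¹ * z2 C P
      rw [e2, inv_mul_cancel_left]
    rw [e]
    exact T.mul_mem (T.inv_mem (hE _ hF2)) (Subgroup.subset_closure (Or.inl (Or.inr rfl)))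
  rw [eq_top_iff]
  rintro ⟨x, hx⟩ -
  have key : ∀ (y : BG N d) (hy : y ∈ GG C P), (⟨y, hy⟩ : GG C P) ∈ T := by
    intro y hy
    unfold GG at hy
    induction hy using Subgroup.closure_induction with
    | mem y hy' =>
      rcases hy' with (⟨F, hF, rfl⟩ | hy') | hy'
      · exact hE F hF
      · rw [Set.mem_singleton_iff] at hy'
        subst hy'
        exact hc
      · rw [Set.mem_singleton_iff] at hy'
        subst hy'
        exact hS
    | one => exact T.one_mem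
    | mul a b ha hb iha ihb => exact T.mul_mem iha ihb
    | inv a ha iha => exact T.inv_mem iha
  exact key x hx

end Run7.h255.NLZZ
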